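import Pool.Agent.W845.TR.Base

set_option autoImplicit false

/-! # TR-SUMA: summation estimate -/

namespace Pool.Agent.W613.TR

open Finset Pool.Agent.W845.TR

theorem ratio_bound (k : ℕ) : ((k : ℝ) + 1) / 4 ^ k ≤ 2 * (49 / 128 : ℝ) ^ k := by
  rcases Nat.eq_zero_or_pos k with h | h
  · subst h; norm_num
  · induction k, h using Nat.le_induction with
    | base => norm_num
    | succ k hk ih =>
      have hk1 : (1 : ℝ) ≤ k := by exact_mod_cast hk
      have h4 : (0 : ℝ) < 4 ^ k := by positivity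
      rw [div_le_iff₀ h4] at ih
      rw [div_le_iff₀ (by positivity), pow_succ, pow_succ]
      have h5 : (0 : ℝ) < (49 / 128 : ℝ) ^ k := by positivity
      have h6 : (0 : ℝ) < (49 / 128 : ℝ) ^ k * 4 ^ k := by positivity
      push_cast
      nlinarith

theorem exp_bound (y : ℝ) (hy : 0 < y) : Real.exp (-y) ≤ (Nat.factorial 16 : ℝ) / y ^ 16 := by
  have h := Real.pow_div_factorial_le_exp y hy.le 16
  rw [Real.exp_neg]
  have h1 : (0 : ℝ) < Nat.factorial 16 := by positivity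
  rw [div_le_iff₀ h1] at h
  rw [le_div_iff₀ (by positivity), inv_mul_le_iff₀ (Real.exp_pos y)]
  exact h

theorem suma : St_SUMA := by
  intro d C ε hd hC hε
  have hdR : (1 : ℝ) ≤ d := by exact_mod_cast hd
  have hd0 : (0 : ℝ) < d := by linarith
  obtain ⟨D, hD⟩ : ∃ D : ℝ, D = 32 * d ^ 2 * Real.exp (2 * C) * (Nat.factorial 16 : ℝ) *
    (32 * d) ^ 12 := ⟨_, rfl⟩
  have hD0 : 0 < D := by rw [hD]; positivity
  obtain ⟨M, hM⟩ : ∃ M : ℝ, M = max 1 (2 * D / ε) := ⟨_, rfl⟩
  have hM1 : 1 ≤ M := by rw [hM]; exact le_max_left _ _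
  have hM2 : 2 * D / ε ≤ M := by rw [hM]; exact le_max_right _ _
  have hM0 : 0 < M := by linarith
  obtain ⟨a, ha⟩ : ∃ a : ℝ, a = M + 4 * C := ⟨_, rfl⟩
  have ha0 : 0 < a := by rw [ha]; positivity
  refine ⟨1 / (1146880 * d ^ 3 * a), by positivity, ?_⟩
  intro n K
  -- the terms
  have hterm : ∀ l k : ℕ, 1 ≤ l → 4 ^ k ≤ 32 * d * l →
      (d : ℝ) * Real.exp (2 * C * ((k + 1) * l / 4 ^ k + 1)) *
      Real.exp (-((7 / 8) ^ k * l / (32 * d)) ^ 2 /
        (16 * (1 / (1146880 * d ^ 3 * a)) * (70 * d * 2 ^ k * l))) ≤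
      (d : ℝ) * Real.exp (2 * C) * ((Nat.factorial 16 : ℝ) * (32 * d) ^ 12 / (M ^ 16 * l ^ 4)) := by
    intro l k hl hk
    have hl1 : (1 : ℝ) ≤ l := by exact_mod_cast hl
    have hl0 : (0 : ℝ) < l := by linarith
    have hkR : (4 : ℝ) ^ k ≤ 32 * d * l := by exact_mod_cast hk
    obtain ⟨x, hx⟩ : ∃ x : ℝ, x = (49 / 128 : ℝ) ^ k * l := ⟨_, rfl⟩
    have hx0 : 0 < x := by rw [hx]; positivity
    have e1 : ((k : ℝ) + 1) * l / 4 ^ k ≤ 2 * x := by
      have := ratio_bound k
      calc ((k : ℝ) + 1) * l / 4 ^ k = ((k : ℝ) + 1) / 4 ^ k * l := by ring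
        _ ≤ 2 * (49 / 128 : ℝ) ^ k * l := by gcongr
        _ = 2 * x := by rw [hx]; ring
    have eτ : (49 / 128 : ℝ) ^ k = ((7 / 8 : ℝ) ^ k) ^ 2 / 2 ^ k := by
      rw [← pow_mul, mul_comm k 2, pow_mul, ← div_pow]
      norm_num
    have e2 : -((7 / 8 : ℝ) ^ k * l / (32 * d)) ^ 2 /
        (16 * (1 / (1146880 * d ^ 3 * a)) * (70 * d * 2 ^ k * l)) = -(a * x) := by
      rw [hx, eτ]
      have h2 : (0 : ℝ) < 2 ^ k := by positivity
      have h7 : (0 : ℝ) < (7 / 8 : ℝ) ^ k := by positivity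
      generalize (2 : ℝ) ^ k = v at *
      generalize (7 / 8 : ℝ) ^ k = u at *
      field_simp
      ring
    have e3 : (l : ℝ) ^ 4 / (32 * d) ^ 12 ≤ x ^ 16 := by
      have h1 : ((1 : ℝ) / 64) ^ k ≤ ((49 / 128 : ℝ) ^ k) ^ 4 := by
        rw [← pow_mul, mul_comm k 4, pow_mul]
        apply pow_le_pow_left₀ (by norm_num)
        norm_num
      have h2 : ((1 : ℝ) / 64) ^ k = 1 / ((4 : ℝ) ^ k) ^ 3 := by
        rw [← pow_mul, mul_comm k 3, pow_mul, one_div, one_div, ← inv_pow]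
        norm_num
      have h3 : 1 / (32 * d * l : ℝ) ^ 3 ≤ 1 / ((4 : ℝ) ^ k) ^ 3 := by
        apply one_div_le_one_div_of_le (by positivity)
        gcongr
      have h4 : (l : ℝ) / (32 * d) ^ 3 ≤ x ^ 4 := by
        calc (l : ℝ) / (32 * d) ^ 3 = 1 / (32 * d * l : ℝ) ^ 3 * (l : ℝ) ^ 4 := by
              field_simp
          _ ≤ ((49 / 128 : ℝ) ^ k) ^ 4 * (l : ℝ) ^ 4 := by
              gcongr
              rw [h2] at h1
              exact h3.trans h1
          _ = x ^ 4 := by rw [hx]; ring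
      calc (l : ℝ) ^ 4 / (32 * d) ^ 12 = ((l : ℝ) / (32 * d) ^ 3) ^ 4 := by
            rw [div_pow, ← pow_mul]
        _ ≤ (x ^ 4) ^ 4 := by gcongr
        _ = x ^ 16 := by rw [← pow_mul]
    rw [e2]
    calc (d : ℝ) * Real.exp (2 * C * ((k + 1) * l / 4 ^ k + 1)) * Real.exp (-(a * x))
        ≤ (d : ℝ) * Real.exp (2 * C * (2 * x + 1)) * Real.exp (-(a * x)) := by
          gcongr
      _ = (d : ℝ) * Real.exp (2 * C) * Real.exp (-(M * x)) := by
          rw [mul_assoc (d : ℝ), mul_assoc (d : ℝ), ← Real.exp_add, ← Real.exp_add, ha]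
          congr 2
          ring
      _ ≤ (d : ℝ) * Real.exp (2 * C) *
          ((Nat.factorial 16 : ℝ) * (32 * d) ^ 12 / (M ^ 16 * l ^ 4)) := by
          gcongr
          refine (exp_bound (M * x) (by positivity)).trans ?_
          rw [mul_pow]
          rw [div_le_div_iff₀ (by positivity) (by positivity)]
          rw [div_le_iff₀ (by positivity)] at e3
          have h0 : (0 : ℝ) < Nat.factorial 16 := by positivity
          calc (Nat.factorial 16 : ℝ) * (M ^ 16 * l ^ 4)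
              = (Nat.factorial 16 : ℝ) * M ^ 16 * l ^ 4 := by ring
            _ ≤ (Nat.factorial 16 : ℝ) * M ^ 16 * (x ^ 16 * (32 * d) ^ 12) := by gcongr
            _ = _ := by ring
  -- the inner sums
  have hinner : ∀ l ∈ Finset.Icc 1 n,
      ∑ k ∈ (Finset.range K).filter (fun k => 4 ^ k ≤ 32 * d * l),
      (d : ℝ) * Real.exp (2 * C * ((k + 1) * l / 4 ^ k + 1)) *
      Real.exp (-((7 / 8) ^ k * l / (32 * d)) ^ 2 /
        (16 * (1 / (1146880 * d ^ 3 * a)) * (70 * d * 2 ^ k * l))) ≤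
      D / M ^ 16 * (2 * (1 / (l : ℝ) - 1 / (l + 1))) := by
    intro l hl
    have hl' := (Finset.mem_Icc.mp hl).1
    have hl1 : (1 : ℝ) ≤ l := by exact_mod_cast hl'
    have hl0 : (0 : ℝ) < l := by linarith
    have hcard : (((Finset.range K).filter (fun k => 4 ^ k ≤ 32 * d * l)).card : ℝ) ≤
        32 * d * l := by
      have h1 : (Finset.range K).filter (fun k => 4 ^ k ≤ 32 * d * l) ⊆
          Finset.range (32 * d * l) := by
        intro k hk
        rw [Finset.mem_filter] at hk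
        rw [Finset.mem_range]
        exact lt_of_lt_of_le (Nat.lt_pow_self (by norm_num)) hk.2
      have h2 := Finset.card_le_card h1
      rw [Finset.card_range] at h2
      exact_mod_cast h2
    calc ∑ k ∈ (Finset.range K).filter (fun k => 4 ^ k ≤ 32 * d * l), _
        ≤ ∑ _k ∈ (Finset.range K).filter (fun k => 4 ^ k ≤ 32 * d * l),
          (d : ℝ) * Real.exp (2 * C) *
            ((Nat.factorial 16 : ℝ) * (32 * d) ^ 12 / (M ^ 16 * l ^ 4)) := by
          apply Finset.sum_le_sum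
          intro k hk
          exact hterm l k hl' (Finset.mem_filter.mp hk).2
      _ = (((Finset.range K).filter (fun k => 4 ^ k ≤ 32 * d * l)).card : ℝ) *
          ((d : ℝ) * Real.exp (2 * C) *
            ((Nat.factorial 16 : ℝ) * (32 * d) ^ 12 / (M ^ 16 * l ^ 4))) := by
          rw [Finset.sum_const, nsmul_eq_mul]
      _ ≤ (32 * d * l) * ((d : ℝ) * Real.exp (2 * C) *
            ((Nat.factorial 16 : ℝ) * (32 * d) ^ 12 / (M ^ 16 * l ^ 4))) := by
          gcongr
      _ = D / M ^ 16 * (1 / (l : ℝ) ^ 3) := by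
          rw [hD]
          field_simp
      _ ≤ D / M ^ 16 * (2 * (1 / (l : ℝ) - 1 / (l + 1))) := by
          gcongr
          have e : 2 * (1 / (l : ℝ) - 1 / (l + 1)) = 2 / (l * (l + 1)) := by
            field_simp
            ring
          rw [e, div_le_div_iff₀ (by positivity) (by positivity)]
          nlinarith [sq_nonneg ((l : ℝ) - 1), mul_pos hl0 hl0]
  have htel : ∀ n : ℕ, ∑ l ∈ Finset.Icc 1 n, (2 * (1 / (l : ℝ) - 1 / (l + 1))) =
      2 - 2 / (n + 1) := by
    intro n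
    induction n with
    | zero => simp
    | succ n ih =>
      rw [Finset.sum_Icc_succ_top (by omega), ih]
      push_cast
      have : (0 : ℝ) < (n : ℝ) + 1 := by positivity
      have : (0 : ℝ) < (n : ℝ) + 1 + 1 := by positivity
      field_simp
      ring
  calc _ ≤ ∑ l ∈ Finset.Icc 1 n, D / M ^ 16 * (2 * (1 / (l : ℝ) - 1 / (l + 1))) :=
        Finset.sum_le_sum hinner
    _ = D / M ^ 16 * (2 - 2 / (n + 1)) := by rw [← Finset.mul_sum, htel]
    _ ≤ D / M ^ 16 * 2 := by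
        gcongr
        have : (0 : ℝ) ≤ 2 / (n + 1) := by positivity
        linarith
    _ ≤ ε := by
        rw [div_le_iff₀ hε] at hM2
        rw [div_mul_eq_mul_div, div_le_iff₀ (by positivity)]
        have h1 : M ≤ M ^ 16 := le_self_pow₀ hM1 (by norm_num)
        nlinarith

end Pool.Agent.W613.TR
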